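import Pool.Agent.H31.SW.TargetsG
import Pool.Agent.H26.GLA.WF

/-!
# (PO) Poisson summation for the shifted lattice (MP_52e316_nt)
-/

set_option autoImplicit false

open NumberField NumberField.InfinitePlace NumberField.Units
  NumberField.Units.dirichletUnitTheorem MeasureTheory Set Filter Complex
open scoped nonZeroDivisors ENNReal

namespace Pool.Agent.H69.SWL

open Pool.Agent.H25.HK Pool.Agent.H23.LB Pool.Agent.H23.LC
open Pool.Agent.H28.RC (Rep ft idl)
open Pool.Agent.H29.DW (dg Rl lf wv Pos Wg cpar Ci om zs rv)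
open Pool.Agent.H31.SW

namespace PO

theorem lf_eq (r : Bool) (G : ℂ → ℂ) (ξ : ℂ) : lf r G ξ = FF r G (2 * Real.pi * dg r * ξ) := by
  cases r
  · unfold lf Pool.Agent.H31.SW.FF itg EE
    simp only [Bool.false_eq_true, if_false]
    congr 1
    refine integral_congr_ae (Eventually.of_forall fun w => ?_)
    show cexp _ * G w = cexp _ * G w
    congr 2
    have h1 : (2 * (Real.pi : ℂ) * ((dg false : ℕ) : ℂ) * ξ * w).re =
        2 * Real.pi * (2 * (w * ξ).re) := by
      have : (2 * (Real.pi : ℂ) * ((dg false : ℕ) : ℂ) * ξ * w) =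
          ((2 * Real.pi * 2 : ℝ) : ℂ) * (w * ξ) := by
        unfold dg
        push_cast
        ring
      rw [this, Complex.re_ofReal_mul]
      ring
    rw [h1]
  · unfold lf Pool.Agent.H31.SW.FF itg EE
    simp only [if_true]
    refine integral_congr_ae (Eventually.of_forall fun x => ?_)
    show cexp _ * G x = cexp _ * G x
    congr 2
    have h1 : (2 * (Real.pi : ℂ) * ((dg true : ℕ) : ℂ) * ξ * (x : ℂ)).re =
        2 * Real.pi * (x * ξ.re) := by
      have : (2 * (Real.pi : ℂ) * ((dg true : ℕ) : ℂ) * ξ * (x : ℂ)) =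
          ((2 * Real.pi * x : ℝ) : ℂ) * ξ := by
        unfold dg
        simp only [if_true]
        push_cast
        ring
      rw [this, Complex.re_ofReal_mul]
      ring
    rw [h1]

theorem decay {K : Type} [Field K] [NumberField K] {G : InfinitePlace K → ℂ → ℂ} {s : ℝ}
    (hs : 0 ≤ s)
    (h : ∃ C : ℝ, ∀ v ξ, Rl (rv v) ξ → ‖FF (rv v) (G v) ξ‖ ≤ C * (1 + ‖ξ‖) ^ (-s)) :
    ∃ C : ℝ, ∀ v ξ, Rl (rv v) ξ → ‖lf (rv v) (G v) ξ‖ ≤ C * (1 + ‖ξ‖) ^ (-s) := by
  obtain ⟨C, hC⟩ := h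
  refine ⟨|C|, fun v ξ hξ => ?_⟩
  rw [lf_eq]
  have h1 : Rl (rv v) (2 * Real.pi * dg (rv v) * ξ) := by
    intro hv
    have h2 := hξ hv
    have : (2 * (Real.pi : ℂ) * ((dg (rv v) : ℕ) : ℂ) * ξ) =
        ((2 * Real.pi * (dg (rv v) : ℝ) : ℝ) : ℂ) * ξ := by
      push_cast
      ring
    rw [this, Complex.im_ofReal_mul, h2, mul_zero]
  refine (hC v _ h1).trans ?_
  have h3 : ‖ξ‖ ≤ ‖2 * (Real.pi : ℂ) * ((dg (rv v) : ℕ) : ℂ) * ξ‖ := by
    have h4 : (1 : ℝ) ≤ ‖2 * (Real.pi : ℂ) * ((dg (rv v) : ℕ) : ℂ)‖ := by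
      have h5 : (1 : ℝ) ≤ (dg (rv v) : ℝ) := by
        unfold dg
        split_ifs <;> norm_num
      rw [norm_mul, norm_mul, Complex.norm_real, Complex.norm_natCast, Real.norm_eq_abs,
        abs_of_pos Real.pi_pos, Complex.norm_ofNat]
      have h6 := Real.pi_gt_three
      nlinarith
    rw [norm_mul]
    have := norm_nonneg ξ
    nlinarith
  have h7 : (1 + ‖2 * (Real.pi : ℂ) * ((dg (rv v) : ℕ) : ℂ) * ξ‖) ^ (-s) ≤
      (1 + ‖ξ‖) ^ (-s) :=
    Real.rpow_le_rpow_of_nonpos (by positivity) (by linarith) (by linarith)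
  calc C * (1 + ‖2 * (Real.pi : ℂ) * ((dg (rv v) : ℕ) : ℂ) * ξ‖) ^ (-s)
      ≤ |C| * (1 + ‖2 * (Real.pi : ℂ) * ((dg (rv v) : ℕ) : ℂ) * ξ‖) ^ (-s) :=
        mul_le_mul_of_nonneg_right (le_abs_self C) (by positivity)
    _ ≤ |C| * (1 + ‖ξ‖) ^ (-s) := mul_le_mul_of_nonneg_left h7 (abs_nonneg _)

theorem hull (K : Type) [Field K] [NumberField K] (L : FI K) (r : K) (hL : L ≠ 0) :
    ∃ (j : Ideal (𝓞 K)) (M : FI K), j ≠ ⊥ ∧ M ≠ 0 ∧ L = (j : FI K) * M ∧ r ∈ M := by
  let M : FI K := L ⊔ FractionalIdeal.spanSingleton (𝓞 K)⁰ r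
  have hLM : L ≤ M := le_sup_left
  have hM : M ≠ 0 := by
    intro h
    apply hL
    rw [h] at hLM
    exact le_antisymm hLM (FractionalIdeal.zero_le L)
  have hle : L * M⁻¹ ≤ 1 := by
    have h1 : L * M⁻¹ ≤ M * M⁻¹ := mul_le_mul_left hLM M⁻¹
    rwa [mul_inv_cancel₀ hM] at h1
  obtain ⟨j, hj⟩ := FractionalIdeal.le_one_iff_exists_coeIdeal.1 hle
  have hjM : L = (j : FI K) * M := by
    rw [hj, mul_assoc, inv_mul_cancel₀ hM, mul_one]
  refine ⟨j, M, ?_, hM, hjM, ?_⟩
  · rintro rfl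
    apply hL
    rw [hjM]
    simp
  · have h1 : FractionalIdeal.spanSingleton (𝓞 K)⁰ r ≤ M := le_sup_right
    exact h1 (FractionalIdeal.mem_spanSingleton_self _ r)

end PO

open PO in
theorem pf_PO (hPG : Pool.Agent.H29.DW.V_PG) : W_PO := by
  classical
  intro K _ _ L r G hL hGc hGs hGd y ω hω
  obtain ⟨j, M, hj, hM, hLjM, hr⟩ := hull K L r hL
  subst hLjM
  obtain ⟨X, hX, -⟩ := Pool.Agent.H48.RC.pf_RX K j M hj hM
  have hd := decay (K := K) (G := G) (s := (Module.finrank ℚ K + 1 : ℝ)) (by positivity) hGd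
  have hper : ∀ x ∈ M, ∀ t ∈ (j : FI K) * M, ci K j M r (x + t) = ci K j M r x := by
    intro x _ t ht
    unfold ci
    have h1 : (x + t - r ∈ (j : FI K) * M) ↔ (x - r ∈ (j : FI K) * M) := by
      constructor
      · intro h
        have h2 := Pool.Agent.H26.GLA.fsub K _ h ht
        have h3 : x + t - r - t = x - r := by ring
        rwa [h3] at h2
      · intro h
        have h2 := Pool.Agent.H26.GLA.fadd K _ h ht
        have h3 : x - r + t = x + t - r := by ring
        rwa [h3] at h2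
    simp only [h1]
  obtain ⟨-, h2, h3⟩ := hPG K j M X (ci K j M r) G hj hM hX hper hGc hGs hd y ω hω
  have hlf : ∀ x : K, ∏ v, lf (rv v) (G v) (wv v x (-y) (fun v => (starRingEnd ℂ) (ω v))) =
      ∏ v, FF (rv v) (G v)
        (2 * Real.pi * dg (rv v) * wv v x (-y) (fun v => (starRingEnd ℂ) (ω v))) :=
    fun x => Finset.prod_congr rfl fun v _ => lf_eq _ _ _
  simp only [hlf] at h2 h3
  refine ⟨h2, ?_⟩
  have hLle : ∀ x : K, x - r ∈ (j : FI K) * M → x ∈ M := by
    intro x hx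
    have h4 : x - r ∈ M := by
      have h5 : (j : FI K) * M ≤ M := by
        calc (j : FI K) * M ≤ 1 * M := mul_le_mul_left FractionalIdeal.coeIdeal_le_one M
          _ = M := one_mul M
      exact h5 hx
    have h6 := Pool.Agent.H26.GLA.fadd K _ h4 hr
    rwa [sub_add_cancel] at h6
  have hlhs : ∑' x : {x : K // x ∈ M}, ci K j M r x * ∏ v, G v (wv v x.1 y ω) =
      ∑' x : {x : K // x ∈ (j : FI K) * M}, pF G y ω (r + x) := by
    have e1 : ∑' x : {x : K // x ∈ M}, ci K j M r x * ∏ v, G v (wv v x.1 y ω) =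
        ∑' x : K, Set.indicator {x : K | x ∈ M}
          (fun x => ci K j M r x * ∏ v, G v (wv v x y ω)) x :=
      tsum_subtype {x : K | x ∈ M} (fun x => ci K j M r x * ∏ v, G v (wv v x y ω))
    have e2 : ∑' x : {x : K // x ∈ (j : FI K) * M}, pF G y ω (r + x) =
        ∑' x : K, Set.indicator {x : K | x ∈ (j : FI K) * M} (fun x => pF G y ω (r + x)) x :=
      tsum_subtype {x : K | x ∈ (j : FI K) * M} (fun x => pF G y ω (r + x))
    rw [e1, e2, ← (Equiv.addLeft r).tsum_eq]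
    refine tsum_congr fun x => ?_
    simp only [Equiv.coe_addLeft]
    by_cases hx : x ∈ (j : FI K) * M
    · have hx' : r + x ∈ M := hLle _ (by rwa [add_sub_cancel_left])
      rw [Set.indicator_of_mem (show r + x ∈ {x : K | x ∈ M} from hx'),
        Set.indicator_of_mem (show x ∈ {x : K | x ∈ (j : FI K) * M} from hx)]
      have h5 : ci K j M r (r + x) = 1 := by
        unfold ci
        rw [if_pos (by rwa [add_sub_cancel_left])]
      rw [h5, one_mul]
      rfl
    · rw [Set.indicator_of_notMem (show x ∉ {x : K | x ∈ (j : FI K) * M} from hx)]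
      have h5 : ci K j M r (r + x) = 0 := by
        unfold ci
        rw [if_neg (by rwa [add_sub_cancel_left])]
      by_cases hx' : r + x ∈ M
      · rw [Set.indicator_of_mem (show r + x ∈ {x : K | x ∈ M} from hx'), h5, zero_mul]
      · rw [Set.indicator_of_notMem (show r + x ∉ {x : K | x ∈ M} from hx')]
  rw [← hlhs, h3]
  have hconst : (Real.exp (-(∑ v, (v.mult : ℝ) * y v) / 2) * (cv K ((j : FI K) * M))⁻¹ : ℝ) =
      DD ((j : FI K) * M) y / Real.sqrt (dK K) := by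
    unfold DD cv dK
    rw [mul_inv]
    ring
  rw [hconst]
  congr 1
  refine tsum_congr fun x => ?_
  rw [Pool.Agent.H26.GLA.ft_ci K j M r X hL hX hr x.1 x.2]

end Pool.Agent.H69.SWL
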