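import Pool.Agent.H31.SW.TargetsL
import Pool.Agent.H31.SW.Tools

/-!
# Local part of (SD): sums over the pieces of the Fourier transforms (MP_52e316_nt)
-/

set_option autoImplicit false

open MeasureTheory Set Filter Complex
open scoped Topology

namespace Pool.Agent.H69.SWL.SDA

open Pool.Agent.H29.DW (dg Rl)
open Pool.Agent.H31.SW

/-! ### Continuity and support of the test functions -/

theorem cont_GG {p : ℂ → ℂ} (hp : Continuous p) (h0 : ∀ x, 1 / 10000 < ‖x‖ → p x = 0) (c : ℂ) :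
    Continuous (GG p c) := by
  rw [continuous_iff_continuousAt]
  intro w
  by_cases hw : ‖w - 1‖ < 1
  · have hre : 0 < w.re := by
      have h1 : |(w - 1).re| ≤ ‖w - 1‖ := Complex.abs_re_le_norm _
      have h2 := (abs_le.1 h1).1
      rw [Complex.sub_re, Complex.one_re] at h2
      linarith
    have h3 : ContinuousAt (fun w : ℂ => c * Complex.log w) w :=
      continuousAt_const.mul (continuousAt_clog (Or.inl hre))
    have h4 : ContinuousAt (fun w : ℂ => EE (c * Complex.log w)) w :=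
      (continuous_EE.continuousAt).comp h3
    have h5 : ContinuousAt (fun w : ℂ => p (w - 1)) w :=
      (hp.comp (continuous_id.sub continuous_const)).continuousAt
    exact h4.mul h5
  · have hopen : IsOpen {w : ℂ | 1 / 10000 < ‖w - 1‖} :=
      isOpen_lt continuous_const (continuous_id.sub continuous_const).norm
    have hmem : w ∈ {w : ℂ | 1 / 10000 < ‖w - 1‖} := by
      show 1 / 10000 < ‖w - 1‖
      linarith
    have h1 : GG p c =ᶠ[𝓝 w] fun _ => 0 := by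
      filter_upwards [hopen.mem_nhds hmem] with w' hw'
      unfold GG
      rw [h0 _ hw', mul_zero]
    exact (continuousAt_const (y := (0 : ℂ))).congr h1.symm

theorem cont_G2 {p : ℂ → ℂ} (hp : Continuous p) (h0 : ∀ x, 1 / 10000 < ‖x‖ → p x = 0)
    (c a : ℂ) : Continuous (G2 p c a) := by
  have h := cont_GG hp h0 c
  have h1 : Continuous fun w : ℂ => GG p c (w + a) := h.comp (continuous_id.add continuous_const)
  have h2 : Continuous fun w : ℂ => (starRingEnd ℂ) (GG p c (w - a)) :=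
    Complex.continuous_conj.comp (h.comp (continuous_id.sub continuous_const))
  exact h1.mul h2

theorem G2_zero {p : ℂ → ℂ} (h0 : ∀ x, 1 / 10000 < ‖x‖ → p x = 0) (c : ℂ) {a w : ℂ}
    (ha : ‖a‖ ≤ 1 / 10000) (hw : 3 < ‖w‖) : G2 p c a w = 0 := by
  have h1 : 1 / 10000 < ‖w + a - 1‖ := by
    have h2 : ‖w‖ ≤ ‖w + a - 1‖ + ‖a‖ + 1 := by
      calc ‖w‖ = ‖(w + a - 1) + (-a) + 1‖ := by ring_nf
        _ ≤ ‖(w + a - 1) + (-a)‖ + ‖(1 : ℂ)‖ := norm_add_le _ _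
        _ ≤ (‖w + a - 1‖ + ‖-a‖) + ‖(1 : ℂ)‖ := by gcongr; exact norm_add_le _ _
        _ = _ := by rw [norm_neg, norm_one]
    linarith
  unfold G2 GG
  rw [h0 _ h1, mul_zero, zero_mul]

/-! ### The pieces -/

/-- the Gaussian integer -/
noncomputable def gi (g : ℤ × ℤ) : ℂ := (g.1 : ℂ) + g.2 * I

theorem abs_le_gi (g : ℤ × ℤ) : |(g.1 : ℝ)| ≤ ‖gi g‖ ∧ |(g.2 : ℝ)| ≤ ‖gi g‖ := by
  have h1 : (gi g).re = (g.1 : ℝ) := by simp [gi]
  have h2 : (gi g).im = (g.2 : ℝ) := by simp [gi]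
  rw [← h1, ← h2]
  exact ⟨Complex.abs_re_le_norm _, Complex.abs_im_le_norm _⟩

theorem summable_int : Summable fun m : ℤ => (1 + |(m : ℝ)|) ^ (-(3 / 2 : ℝ)) := by
  have h1 : Summable fun n : ℕ => (1 + (n : ℝ)) ^ (-(3 / 2 : ℝ)) := by
    have h2 : Summable fun n : ℕ => ((n : ℝ)) ^ (-(3 / 2 : ℝ)) :=
      Real.summable_nat_rpow.2 (by norm_num)
    have h3 := (summable_nat_add_iff 1).2 h2
    refine h3.congr fun n => ?_
    push_cast
    rw [add_comm]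
  refine Summable.of_nat_of_neg ?_ ?_
  · refine h1.congr fun n => ?_
    simp
  · refine h1.congr fun n => ?_
    simp

theorem summable_gi : Summable fun g : ℤ × ℤ => (1 + ‖gi g‖) ^ (-(3 : ℝ)) := by
  have h1 := summable_int.mul_of_nonneg summable_int (fun m => by positivity)
    (fun m => by positivity)
  refine Summable.of_nonneg_of_le (fun g => by positivity) (fun g => ?_) h1
  have h2 : (1 + ‖gi g‖) ^ (-(3 : ℝ)) =
      (1 + ‖gi g‖) ^ (-(3 / 2 : ℝ)) * (1 + ‖gi g‖) ^ (-(3 / 2 : ℝ)) := by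
    rw [← Real.rpow_add (by positivity)]
    norm_num
  rw [h2]
  have h3 : (1 + ‖gi g‖) ^ (-(3 / 2 : ℝ)) ≤ (1 + |(g.1 : ℝ)|) ^ (-(3 / 2 : ℝ)) :=
    Real.rpow_le_rpow_of_nonpos (by positivity) (by linarith [(abs_le_gi g).1]) (by norm_num)
  have h4 : (1 + ‖gi g‖) ^ (-(3 / 2 : ℝ)) ≤ (1 + |(g.2 : ℝ)|) ^ (-(3 / 2 : ℝ)) :=
    Real.rpow_le_rpow_of_nonpos (by positivity) (by linarith [(abs_le_gi g).2]) (by norm_num)
  exact mul_le_mul h3 h4 (by positivity) (by positivity)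

/-- the constant -/
noncomputable def B0 : ℝ := ∑' g : ℤ × ℤ, (1 + ‖gi g‖) ^ (-(3 : ℝ))

theorem B0_nonneg : 0 ≤ B0 := tsum_nonneg fun g => by positivity

theorem hasSum_opt {β : Type} {f : Option β → ℝ} {S : ℝ} (h : HasSum (fun b => f (some b)) S) :
    HasSum f (f none + S) := by
  classical
  have h1 : HasSum (fun j : Option β => Option.elim j 0 fun b => f (some b)) S := by
    refine ((Option.some_injective β).hasSum_iff ?_).1 h
    intro x hx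
    cases x with
    | none => rfl
    | some b => exact absurd ⟨b, rfl⟩ hx
  have h2 : HasSum (fun j : Option β => if j = none then f none else 0) (f none) :=
    hasSum_ite_eq none (f none)
  have h3 := h2.add h1
  have h4 : (fun j : Option β => (if j = none then f none else 0) +
      Option.elim j 0 fun b => f (some b)) = f := by
    funext j
    cases j <;> simp
  rwa [h4] at h3

/-- the majorant of the pieces -/
noncomputable def cb (C lam : ℝ) (k e : ℕ) : Option (ℤ × ℤ) → ℝ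
  | none => if 1 ≤ lam then C * lam ^ (-(e : ℝ) / 2) else 0
  | some g => C * (1 + lam + ‖gi g‖) ^ (-(k : ℝ))

/-- the scale of the pieces -/
noncomputable def mt (lam : ℝ) : Option (ℤ × ℤ) → ℝ
  | none => lam
  | some _ => 1

theorem cb_nonneg {C lam : ℝ} (hC : 0 ≤ C) (hl : 0 ≤ lam) (k e : ℕ) (j : Option (ℤ × ℤ)) :
    0 ≤ cb C lam k e j := by
  cases j with
  | none =>
    unfold cb
    split_ifs
    · positivity
    · exact le_rfl
  | some g =>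
    unfold cb
    positivity

theorem cb_some_le {C lam : ℝ} (hC : 0 ≤ C) (hl : 0 ≤ lam) {k : ℕ} (hk : 4 ≤ k) (e : ℕ)
    (g : ℤ × ℤ) : cb C lam k e (some g) ≤ C * (1 + lam) ^ (-(1 : ℝ)) *
      (1 + ‖gi g‖) ^ (-(3 : ℝ)) := by
  show C * (1 + lam + ‖gi g‖) ^ (-(k : ℝ)) ≤ _
  rw [mul_assoc]
  refine mul_le_mul_of_nonneg_left ?_ hC
  have hn := norm_nonneg (gi g)
  have hk' : (4 : ℝ) ≤ k := by exact_mod_cast hk
  calc (1 + lam + ‖gi g‖) ^ (-(k : ℝ)) ≤ (1 + lam + ‖gi g‖) ^ (-(1 : ℝ) + -(3 : ℝ)) :=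
        Real.rpow_le_rpow_of_exponent_le (by linarith) (by linarith)
    _ = (1 + lam + ‖gi g‖) ^ (-(1 : ℝ)) * (1 + lam + ‖gi g‖) ^ (-(3 : ℝ)) :=
        Real.rpow_add (by positivity) _ _
    _ ≤ (1 + lam) ^ (-(1 : ℝ)) * (1 + ‖gi g‖) ^ (-(3 : ℝ)) := by
        refine mul_le_mul ?_ ?_ (by positivity) (by positivity)
        · exact Real.rpow_le_rpow_of_nonpos (by positivity) (by linarith) (by norm_num)
        · exact Real.rpow_le_rpow_of_nonpos (by positivity) (by linarith) (by norm_num)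

theorem sum_pieces {C lam : ℝ} (hC : 0 ≤ C) (hl : 0 ≤ lam) {k e : ℕ} (hk : 4 ≤ k) (he : e ≤ 2)
    {β : ℝ} (hβ : 0 ≤ β) :
    Summable (fun j => cb C lam k e j * mt lam j ^ (β * e)) ∧
    ∑' j, cb C lam k e j * mt lam j ^ (β * e) ≤
      C * (1 + B0) * (max 1 lam) ^ ((β - 1 / 2) * e) := by
  have he2 : (e : ℝ) ≤ 2 := by exact_mod_cast he
  have he0 : (0 : ℝ) ≤ e := Nat.cast_nonneg e
  set f : Option (ℤ × ℤ) → ℝ := fun j => cb C lam k e j * mt lam j ^ (β * e) with hf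
  have hsome : ∀ g, f (some g) ≤ C * (1 + lam) ^ (-(1 : ℝ)) * (1 + ‖gi g‖) ^ (-(3 : ℝ)) := by
    intro g
    have h1 : f (some g) = cb C lam k e (some g) := by
      show cb C lam k e (some g) * (1 : ℝ) ^ (β * e) = _
      rw [Real.one_rpow, mul_one]
    rw [h1]
    exact cb_some_le hC hl hk e g
  have hsome0 : ∀ g, 0 ≤ f (some g) := fun g =>
    mul_nonneg (cb_nonneg hC hl k e _) (Real.rpow_nonneg (by show (0 : ℝ) ≤ 1; norm_num) _)
  have hs1 : Summable fun g => C * (1 + lam) ^ (-(1 : ℝ)) * (1 + ‖gi g‖) ^ (-(3 : ℝ)) :=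
    summable_gi.mul_left _
  have hs : Summable fun g => f (some g) := Summable.of_nonneg_of_le hsome0 hsome hs1
  have h2 := hasSum_opt (f := f) hs.hasSum
  refine ⟨h2.summable, ?_⟩
  rw [h2.tsum_eq]
  have h3 : ∑' g, f (some g) ≤ C * (1 + lam) ^ (-(1 : ℝ)) * B0 := by
    calc ∑' g, f (some g) ≤ ∑' g, C * (1 + lam) ^ (-(1 : ℝ)) * (1 + ‖gi g‖) ^ (-(3 : ℝ)) :=
          hs.tsum_le_tsum hsome hs1
      _ = _ := tsum_mul_left
  have hM1 : (1 : ℝ) ≤ max 1 lam := le_max_left _ _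
  have h4 : (1 + lam) ^ (-(1 : ℝ)) ≤ (max 1 lam) ^ ((β - 1 / 2) * e) := by
    calc (1 + lam) ^ (-(1 : ℝ)) ≤ (max 1 lam) ^ (-(1 : ℝ)) :=
          Real.rpow_le_rpow_of_nonpos (by positivity) (max_le (by linarith) (by linarith))
            (by norm_num)
      _ ≤ _ := Real.rpow_le_rpow_of_exponent_le hM1 (by nlinarith)
  have h5 : f none ≤ C * (max 1 lam) ^ ((β - 1 / 2) * e) := by
    show (if 1 ≤ lam then C * lam ^ (-(e : ℝ) / 2) else 0) * lam ^ (β * e) ≤ _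
    split_ifs with h
    · rw [max_eq_right h, mul_assoc, ← Real.rpow_add (by linarith)]
      refine le_of_eq ?_
      congr 2
      ring
    · rw [zero_mul]
      positivity
  have h6 := mul_le_mul_of_nonneg_left h4 (mul_nonneg hC B0_nonneg)
  calc f none + ∑' g, f (some g) ≤ C * (max 1 lam) ^ ((β - 1 / 2) * e) +
        C * (1 + lam) ^ (-(1 : ℝ)) * B0 := add_le_add h5 h3
    _ ≤ C * (1 + B0) * (max 1 lam) ^ ((β - 1 / 2) * e) := by
        have : C * (1 + lam) ^ (-(1 : ℝ)) * B0 = C * B0 * (1 + lam) ^ (-(1 : ℝ)) := by ring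
        rw [this]
        linarith

/-- the centres of the pieces -/
noncomputable def gc (Λ : ℂ) : Option (ℤ × ℤ) → ℂ
  | none => Λ
  | some g => gi g

/-- the pieces of (DE) -/
structure Pcs (N k : ℕ) (C : ℝ) (r : Bool) (Λ a : ℂ) (G : ℂ → ℂ)
    (F : Option (ℤ × ℤ) → ℂ → ℂ) : Prop where
  sum : ∀ ζ, Rl r ζ → HasSum (fun j => F j ζ) (G ζ)
  small : ‖Λ‖ < 1 → F none = 0
  large : 1 ≤ ‖Λ‖ → ∃ A : ℂ → ℂ, DS N (C * ‖Λ‖ ^ (-(dg r : ℝ) / 2)) 1 (1 / 500) A ∧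
      F none = FT1 Λ a A
  sm : ∀ g : ℤ × ℤ, DS N (C * (1 + ‖Λ‖ + ‖gi g‖) ^ (-(k : ℝ))) (gi g) 2 (F (some g))

theorem Pcs.norm_le {N k : ℕ} {C : ℝ} {r : Bool} {Λ a : ℂ} {G : ℂ → ℂ}
    {F : Option (ℤ × ℤ) → ℂ → ℂ} (h : Pcs N k C r Λ a G F) (hC : 0 ≤ C) (j : Option (ℤ × ℤ))
    (z : ℂ) : ‖F j z‖ ≤ cb C ‖Λ‖ k (dg r) j := by
  cases j with
  | none =>
    show _ ≤ if 1 ≤ ‖Λ‖ then C * ‖Λ‖ ^ (-(dg r : ℝ) / 2) else 0
    split_ifs with hl
    · obtain ⟨A, hA, hF⟩ := h.large hl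
      rw [hF]
      unfold FT1
      rw [norm_mul, norm_EE, mul_one]
      exact hA.norm_le (by positivity) _
    · rw [h.small (not_le.1 hl)]
      simp
  | some g => exact (h.sm g).norm_le (by positivity) z

theorem Pcs.eq_zero {N k : ℕ} {C : ℝ} {r : Bool} {Λ a : ℂ} {G : ℂ → ℂ}
    {F : Option (ℤ × ℤ) → ℂ → ℂ} (h : Pcs N k C r Λ a G F) {R : ℝ} (hR : ‖Λ‖ + 2 ≤ R)
    (j : Option (ℤ × ℤ)) {z : ℂ} (hz : R < ‖z - gc Λ j‖) : F j z = 0 := by
  have hn := norm_nonneg Λ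
  cases j with
  | none =>
    rcases lt_or_ge ‖Λ‖ 1 with hl | hl
    · rw [h.small hl]
      rfl
    · obtain ⟨A, hA, hF⟩ := h.large hl
      have hΛ : Λ ≠ 0 := by
        rintro rfl
        rw [norm_zero] at hl
        linarith
      rw [hF]
      unfold FT1
      have h1 : 1 / 500 < ‖z / Λ - 1‖ := by
        have h2 : z / Λ - 1 = (z - Λ) / Λ := by
          field_simp
        have h3 : R < ‖z - Λ‖ := hz
        rw [h2, norm_div, lt_div_iff₀ (by linarith)]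
        linarith
      rw [hA.eq_zero h1, zero_mul]
  | some g =>
    have h3 : R < ‖z - gi g‖ := hz
    exact (h.sm g).eq_zero (by linarith)

/-- decay of the Fourier transform -/
theorem Pcs.decay {N k : ℕ} {C : ℝ} {r : Bool} {Λ a : ℂ} {G : ℂ → ℂ}
    {F : Option (ℤ × ℤ) → ℂ → ℂ} (h : Pcs N k C r Λ a G F) (hC : 0 ≤ C) {s : ℝ} (hs : 0 ≤ s)
    (hk : s + 3 ≤ k) : ∃ C' : ℝ, 0 ≤ C' ∧ ∀ ξ, Rl r ξ → ‖G ξ‖ ≤ C' * (1 + ‖ξ‖) ^ (-s) := by
  have hn := norm_nonneg Λ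
  set d : Option (ℤ × ℤ) → ℝ := fun j => Option.elim j
    (cb C ‖Λ‖ k (dg r) none * (1 + (2 * ‖Λ‖ + 2)) ^ s)
    fun g => C * 3 ^ s * (1 + ‖gi g‖) ^ (-(3 : ℝ)) with hd
  have hsd : Summable fun g : ℤ × ℤ => d (some g) := summable_gi.mul_left _
  have h1 := hasSum_opt (f := d) hsd.hasSum
  have hd0 : ∀ j, 0 ≤ d j := by
    intro j
    cases j with
    | none => exact mul_nonneg (cb_nonneg hC hn k _ _) (by positivity)
    | some g =>
      show 0 ≤ C * 3 ^ s * (1 + ‖gi g‖) ^ (-(3 : ℝ))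
      positivity
  refine ⟨d none + ∑' g, d (some g), add_nonneg (hd0 _) (tsum_nonneg fun g => hd0 _), ?_⟩
  intro ξ hξ
  have hξ0 := norm_nonneg ξ
  refine (h.sum ξ hξ).norm_le_of_bounded (h1.mul_right ((1 + ‖ξ‖) ^ (-s))) fun j => ?_
  have hx0 : (0 : ℝ) < 1 + ‖ξ‖ := by positivity
  cases j with
  | none =>
    by_cases hz : ‖Λ‖ + 2 < ‖ξ - gc Λ none‖
    · rw [h.eq_zero le_rfl none hz, norm_zero]
      exact mul_nonneg (hd0 _) (by positivity)
    · have h2 : ‖ξ - Λ‖ ≤ ‖Λ‖ + 2 := not_lt.1 hz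
      have h3 : ‖ξ‖ ≤ 2 * ‖Λ‖ + 2 := by
        calc ‖ξ‖ = ‖(ξ - Λ) + Λ‖ := by rw [sub_add_cancel]
          _ ≤ ‖ξ - Λ‖ + ‖Λ‖ := norm_add_le _ _
          _ ≤ _ := by linarith
      have h4 : 1 ≤ (1 + (2 * ‖Λ‖ + 2)) ^ s * (1 + ‖ξ‖) ^ (-s) := by
        calc (1 : ℝ) = (1 + ‖ξ‖) ^ s * (1 + ‖ξ‖) ^ (-s) := by
              rw [← Real.rpow_add hx0, add_neg_cancel, Real.rpow_zero]
          _ ≤ _ := mul_le_mul_of_nonneg_right
              (Real.rpow_le_rpow hx0.le (by linarith) hs) (by positivity)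
      calc ‖F none ξ‖ ≤ cb C ‖Λ‖ k (dg r) none := h.norm_le hC none ξ
        _ ≤ cb C ‖Λ‖ k (dg r) none * ((1 + (2 * ‖Λ‖ + 2)) ^ s * (1 + ‖ξ‖) ^ (-s)) :=
            le_mul_of_one_le_right (cb_nonneg hC hn k _ _) h4
        _ = d none * (1 + ‖ξ‖) ^ (-s) := by
            show _ = cb C ‖Λ‖ k (dg r) none * (1 + (2 * ‖Λ‖ + 2)) ^ s * (1 + ‖ξ‖) ^ (-s)
            ring
  | some g =>
    have hg := norm_nonneg (gi g)
    by_cases hz : 2 < ‖ξ - gi g‖
    · rw [(h.sm g).eq_zero hz, norm_zero]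
      exact mul_nonneg (hd0 _) (by positivity)
    · have h2 : ‖ξ - gi g‖ ≤ 2 := not_lt.1 hz
      have h3 : 1 + ‖ξ‖ ≤ 3 * (1 + ‖gi g‖) := by
        have : ‖ξ‖ ≤ ‖ξ - gi g‖ + ‖gi g‖ := by
          calc ‖ξ‖ = ‖(ξ - gi g) + gi g‖ := by rw [sub_add_cancel]
            _ ≤ _ := norm_add_le _ _
        linarith
      have h4 : (1 + ‖gi g‖) ^ (-s) ≤ 3 ^ s * (1 + ‖ξ‖) ^ (-s) := by
        have h5 : (3 * (1 + ‖gi g‖)) ^ (-s) ≤ (1 + ‖ξ‖) ^ (-s) :=
          Real.rpow_le_rpow_of_nonpos hx0 h3 (by linarith)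
        rw [Real.mul_rpow (by norm_num) (by positivity)] at h5
        have h6 : (3 : ℝ) ^ s * (3 : ℝ) ^ (-s) = 1 := by
          rw [← Real.rpow_add (by norm_num), add_neg_cancel, Real.rpow_zero]
        calc (1 + ‖gi g‖) ^ (-s) = (3 : ℝ) ^ s * ((3 : ℝ) ^ (-s) * (1 + ‖gi g‖) ^ (-s)) := by
              rw [← mul_assoc, h6, one_mul]
          _ ≤ _ := mul_le_mul_of_nonneg_left h5 (by positivity)
      calc ‖F (some g) ξ‖ ≤ C * (1 + ‖Λ‖ + ‖gi g‖) ^ (-(k : ℝ)) :=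
            (h.sm g).norm_le (by positivity) ξ
        _ ≤ C * ((1 + ‖gi g‖) ^ (-s) * (1 + ‖gi g‖) ^ (-(3 : ℝ))) := by
            refine mul_le_mul_of_nonneg_left ?_ hC
            rw [← Real.rpow_add (by positivity)]
            calc (1 + ‖Λ‖ + ‖gi g‖) ^ (-(k : ℝ)) ≤ (1 + ‖gi g‖) ^ (-(k : ℝ)) :=
                  Real.rpow_le_rpow_of_nonpos (by positivity) (by linarith)
                    (by linarith)
              _ ≤ _ := Real.rpow_le_rpow_of_exponent_le (by linarith) (by linarith)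
        _ ≤ C * ((3 ^ s * (1 + ‖ξ‖) ^ (-s)) * (1 + ‖gi g‖) ^ (-(3 : ℝ))) := by
            refine mul_le_mul_of_nonneg_left ?_ hC
            exact mul_le_mul_of_nonneg_right h4 (by positivity)
        _ = d (some g) * (1 + ‖ξ‖) ^ (-s) := by
            show _ = C * 3 ^ s * (1 + ‖gi g‖) ^ (-(3 : ℝ)) * (1 + ‖ξ‖) ^ (-s)
            ring

/-- the pieces exist -/
theorem exists_pcs (hDE : W_DE) (p : Bool → ℂ → ℂ) (hp : Pf p) (N k : ℕ) : ∃ C : ℝ, 0 < C ∧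
    ∀ (r : Bool) (c a : ℂ), a ≠ 0 → ‖a‖ ≤ 1 / 10000 → Rl r a → Rl r c →
      ∃ F, Pcs N k C r (2 * c * a) a (FF r (G2 (p r) c a)) F := by
  obtain ⟨C, hC, h⟩ := hDE p hp N k
  refine ⟨C, hC, fun r c a ha ha' hra hrc => ?_⟩
  obtain ⟨F, h1, h2, h3, h4⟩ := h r c a ha ha' hra hrc
  exact ⟨F, ⟨h1, h2, h3, fun g => h4 g.1 g.2⟩⟩

end Pool.Agent.H69.SWL.SDA
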