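import Pool.Agent.H31.SW.TargetsG
import Pool.Agent.H29.DW.Tools
import Pool.Agent.H63.HK.DU
import Pool.Agent.H69.SWL.SDA

/-!
# (SD) the bound for the sum after the first differencing step (MP_52e316_nt)
-/

set_option autoImplicit false

open NumberField NumberField.InfinitePlace NumberField.Units
  NumberField.Units.dirichletUnitTheorem MeasureTheory Set Filter Complex
open scoped nonZeroDivisors ENNReal

namespace Pool.Agent.H69.SWL

open Pool.Agent.H25.HK Pool.Agent.H23.LB Pool.Agent.H23.LC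
open Pool.Agent.H29.DW (dg Rl lf wv Pos Wg cpar Ci om zs rv norm_wv Rl_wv dg_rv card_places_le)
open Pool.Agent.H31.SW

namespace SD

open SDA

/-- products of sums of nonnegative numbers -/
theorem peR (hPE : W_PE) (ι J : Type) [Fintype ι] [DecidableEq ι] (f : ι → J → ℝ)
    (h0 : ∀ i j, 0 ≤ f i j) (hs : ∀ i, Summable (f i)) :
    Summable (fun j : ι → J => ∏ i, f i (j i)) ∧
      ∑' j : ι → J, ∏ i, f i (j i) = ∏ i, ∑' j, f i j := by
  have h1 := hPE ι J (fun i j => ((f i j : ℝ) : ℂ)) (fun i => by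
    refine (hs i).congr fun j => ?_
    rw [Complex.norm_real, Real.norm_eq_abs, abs_of_nonneg (h0 i j)])
  obtain ⟨h2, h3⟩ := h1
  have h4 : ∀ j : ι → J, ‖∏ i, ((f i (j i) : ℝ) : ℂ)‖ = ∏ i, f i (j i) := by
    intro j
    rw [← Complex.ofReal_prod, Complex.norm_real, Real.norm_eq_abs,
      abs_of_nonneg (Finset.prod_nonneg fun i _ => h0 i (j i))]
  simp only [h4] at h2
  refine ⟨h2, ?_⟩
  have h5 : ((∏ i, ∑' j, f i j : ℝ) : ℂ) = ((∑' j : ι → J, ∏ i, f i (j i) : ℝ) : ℂ) := by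
    rw [Complex.ofReal_prod, Complex.ofReal_tsum]
    simp only [Complex.ofReal_tsum, Complex.ofReal_prod]
    exact h3
  exact (Complex.ofReal_injective h5).symm

variable {K : Type} [Field K] [NumberField K]

theorem dK_one_le : 1 ≤ dK K := by
  unfold dK
  have h1 : (1 : ℤ) ≤ |discr K| := Int.one_le_abs (discr_ne_zero K)
  have h2 : ((1 : ℤ) : ℝ) ≤ ((|discr K| : ℤ) : ℝ) := by exact_mod_cast h1
  rw [Int.cast_abs] at h2
  simpa using h2

theorem norm_pos (L : FI K) (hL : L ≠ 0) : 0 < (FractionalIdeal.absNorm L : ℝ) :=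
  (Pool.Agent.H63.HK.du K L hL).2.2.2.1

theorem DD_pos (L : FI K) (hL : L ≠ 0) (y : InfinitePlace K → ℝ) : 0 < DD L y := by
  unfold DD
  exact div_pos (Real.exp_pos _) (norm_pos L hL)

/-- the dual position -/
noncomputable def yd (y : InfinitePlace K → ℝ) : InfinitePlace K → ℝ := fun v =>
  -y v + 2 * Real.log (2 * Real.pi * dg (rv v))

theorem dg_one_le (v : InfinitePlace K) : (1 : ℝ) ≤ dg (rv v) := by
  unfold dg
  split_ifs <;> norm_num

theorem two_pi_dg (v : InfinitePlace K) : 1 ≤ 2 * Real.pi * (dg (rv v) : ℝ) := by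
  have h1 := Real.pi_gt_three
  have h2 := dg_one_le v
  nlinarith

theorem wv_yd (v : InfinitePlace K) (x : K) (y : InfinitePlace K → ℝ)
    (ω : InfinitePlace K → ℂ) :
    2 * Real.pi * dg (rv v) * wv v x (-y) ω = wv v x (yd y) ω := by
  have h1 : 0 < 2 * Real.pi * (dg (rv v) : ℝ) := by
    have := two_pi_dg v
    linarith
  unfold wv yd
  have h2 : Real.exp ((-y v + 2 * Real.log (2 * Real.pi * dg (rv v))) / 2) =
      Real.exp (-y v / 2) * (2 * Real.pi * (dg (rv v) : ℝ)) := by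
    rw [add_div, Real.exp_add, mul_div_cancel_left₀ _ (two_ne_zero), Real.exp_log h1]
  rw [h2, Pi.neg_apply]
  push_cast
  ring

theorem DD_dual (L : FI K) (hL : L ≠ 0) (y : InfinitePlace K → ℝ) :
    DD (du K L) (yd y) ≤ dK K / DD L y := by
  have h0 := norm_pos L hL
  obtain ⟨hd, -, -, -, h1⟩ := Pool.Agent.H63.HK.du K L hL
  have h0' := norm_pos (du K L) hd
  have h2 : dK K / DD L y = Real.exp ((∑ v, (v.mult : ℝ) * y v) / 2) /
      (FractionalIdeal.absNorm (du K L) : ℝ) := by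
    unfold DD dK
    rw [div_div_eq_mul_div, div_eq_div_iff (Real.exp_pos _).ne' h0'.ne']
    have h3 : Real.exp ((∑ v, (v.mult : ℝ) * y v) / 2) *
        Real.exp (-(∑ v, (v.mult : ℝ) * y v) / 2) = 1 := by
      rw [← Real.exp_add]
      have : (∑ v : InfinitePlace K, (v.mult : ℝ) * y v) / 2 +
          -(∑ v : InfinitePlace K, (v.mult : ℝ) * y v) / 2 = 0 := by ring
      rw [this, Real.exp_zero]
    rw [h3]
    linarith
  rw [h2]
  unfold DD
  refine div_le_div_of_nonneg_right (Real.exp_le_exp.2 ?_) h0'.le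
  have h4 : ∑ v : InfinitePlace K, (v.mult : ℝ) * yd y v =
      -(∑ v, (v.mult : ℝ) * y v) + ∑ v : InfinitePlace K, (v.mult : ℝ) *
        (2 * Real.log (2 * Real.pi * dg (rv v))) := by
    rw [← Finset.sum_neg_distrib, ← Finset.sum_add_distrib]
    refine Finset.sum_congr rfl fun v _ => ?_
    unfold yd
    ring
  have h5 : 0 ≤ ∑ v : InfinitePlace K, (v.mult : ℝ) *
      (2 * Real.log (2 * Real.pi * dg (rv v))) :=
    Finset.sum_nonneg fun v _ => mul_nonneg (Nat.cast_nonneg _)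
      (mul_nonneg (by norm_num) (Real.log_nonneg (two_pi_dg v)))
  rw [h4]
  linarith

theorem PP_rpow (R : InfinitePlace K → ℝ) (hR : ∀ v, 0 ≤ R v) (β : ℝ) :
    PP R ^ β = ∏ v : InfinitePlace K, R v ^ (β * dg (rv v)) := by
  unfold PP
  rw [← Real.finsetProd_rpow _ _ fun v _ => pow_nonneg (hR v) _]
  refine Finset.prod_congr rfl fun v _ => ?_
  rw [← Real.rpow_natCast, ← Real.rpow_mul (hR v), dg_rv, mul_comm]

theorem PP_nonneg (R : InfinitePlace K → ℝ) (hR : ∀ v, 0 ≤ R v) : 0 ≤ PP R :=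
  Finset.prod_nonneg fun v _ => pow_nonneg (hR v) _

/-- the sum over all pieces -/
theorem sum_all (hPE : W_PE) {n : ℕ} (hn : Module.finrank ℚ K = n) {C : ℝ} (hC : 0 ≤ C) {k : ℕ}
    (hk : 4 ≤ k) (lam : InfinitePlace K → ℝ) (hl : ∀ v, 0 ≤ lam v) {β : ℝ} (hβ : 0 ≤ β) :
    Summable (fun j : InfinitePlace K → Option (ℤ × ℤ) =>
      (∏ v, cb C (lam v) k (dg (rv v)) (j v)) * PP (fun v => mt (lam v) (j v)) ^ β) ∧
    ∑' j : InfinitePlace K → Option (ℤ × ℤ),
      (∏ v, cb C (lam v) k (dg (rv v)) (j v)) * PP (fun v => mt (lam v) (j v)) ^ β ≤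
      (max 1 (C * (1 + B0))) ^ n * PP (fun v => max 1 (lam v)) ^ (β - 1 / 2) := by
  classical
  have hmt : ∀ (v : InfinitePlace K) (j : Option (ℤ × ℤ)), 0 ≤ mt (lam v) j := by
    intro v j
    cases j with
    | none => exact hl v
    | some g => exact zero_le_one
  have hdg : ∀ v : InfinitePlace K, dg (rv v) ≤ 2 := by
    intro v
    unfold dg
    split_ifs <;> norm_num
  have h1 := peR hPE (InfinitePlace K) (Option (ℤ × ℤ))
    (fun v j => cb C (lam v) k (dg (rv v)) j * mt (lam v) j ^ (β * dg (rv v)))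
    (fun v j => mul_nonneg (cb_nonneg hC (hl v) k _ j) (Real.rpow_nonneg (hmt v j) _))
    (fun v => (sum_pieces hC (hl v) hk (hdg v) hβ).1)
  have h2 : ∀ j : InfinitePlace K → Option (ℤ × ℤ),
      ∏ v, cb C (lam v) k (dg (rv v)) (j v) * mt (lam v) (j v) ^ (β * dg (rv v)) =
      (∏ v, cb C (lam v) k (dg (rv v)) (j v)) * PP (fun v => mt (lam v) (j v)) ^ β := by
    intro j
    rw [Finset.prod_mul_distrib, PP_rpow _ fun v => hmt v (j v)]
  simp only [h2] at h1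
  obtain ⟨h3, h4⟩ := h1
  refine ⟨h3, ?_⟩
  rw [h4]
  have h5 : ∀ v : InfinitePlace K,
      ∑' j, cb C (lam v) k (dg (rv v)) j * mt (lam v) j ^ (β * dg (rv v)) ≤
      C * (1 + B0) * (max 1 (lam v)) ^ ((β - 1 / 2) * dg (rv v)) := fun v =>
    (sum_pieces hC (hl v) hk (hdg v) hβ).2
  have hM : ∀ v : InfinitePlace K, (0 : ℝ) ≤ max 1 (lam v) := fun v =>
    le_trans zero_le_one (le_max_left _ _)
  calc ∏ v : InfinitePlace K,
        ∑' j, cb C (lam v) k (dg (rv v)) j * mt (lam v) j ^ (β * dg (rv v))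
      ≤ ∏ v : InfinitePlace K, (C * (1 + B0) * (max 1 (lam v)) ^ ((β - 1 / 2) * dg (rv v))) :=
        Finset.prod_le_prod (fun v _ => tsum_nonneg fun j =>
          mul_nonneg (cb_nonneg hC (hl v) k _ j) (Real.rpow_nonneg (hmt v j) _))
          fun v _ => h5 v
    _ = (C * (1 + B0)) ^ Fintype.card (InfinitePlace K) *
        PP (fun v => max 1 (lam v)) ^ (β - 1 / 2) := by
        rw [Finset.prod_mul_distrib, Finset.prod_const, Finset.card_univ, PP_rpow _ hM]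
    _ ≤ (max 1 (C * (1 + B0))) ^ n * PP (fun v => max 1 (lam v)) ^ (β - 1 / 2) := by
        refine mul_le_mul_of_nonneg_right ?_ (Real.rpow_nonneg (PP_nonneg _ hM) _)
        calc (C * (1 + B0)) ^ Fintype.card (InfinitePlace K)
            ≤ (max 1 (C * (1 + B0))) ^ Fintype.card (InfinitePlace K) :=
              pow_le_pow_left₀ (mul_nonneg hC (by linarith [B0_nonneg])) (le_max_right _ _) _
          _ ≤ _ := pow_le_pow_right₀ (le_max_left _ _) (card_places_le hn)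

/-- the numbers -/
theorem dual_pow {D d E α : ℝ} (hD : 0 < D) (hd : 1 ≤ d) (hE0 : 0 ≤ E) (hE : E ≤ d / D)
    (h0 : 0 ≤ α) (h2 : α ≤ 2) : D * E ^ α ≤ d ^ 2 * D ^ (1 - α) := by
  have hd0 : 0 < d := lt_of_lt_of_le one_pos hd
  calc D * E ^ α ≤ D * (d / D) ^ α :=
        mul_le_mul_of_nonneg_left (Real.rpow_le_rpow hE0 hE h0) hD.le
    _ = d ^ α * D ^ (1 - α) := by
        rw [Real.div_rpow hd0.le hD.le, Real.rpow_sub hD, Real.rpow_one]
        ring
    _ ≤ d ^ 2 * D ^ (1 - α) := by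
        refine mul_le_mul_of_nonneg_right ?_ (Real.rpow_nonneg hD.le _)
        rw [← Real.rpow_natCast d 2]
        exact Real.rpow_le_rpow_of_exponent_le hd (by exact_mod_cast h2)

/-- the bound for one piece -/
theorem piece {n k : ℕ} {CG CD : ℝ} (hCG : 0 ≤ CG) (hCD : 0 < CD)
    (hG : ∀ (L : FI K) (y : InfinitePlace K → ℝ) (ω : InfinitePlace K → ℂ)
      (t : InfinitePlace K → Bool) (Λ a g : InfinitePlace K → ℂ) (F : InfinitePlace K → ℂ → ℂ)
      (r : K), L ≠ 0 → Pos ω → (∀ v, LDat (n + 5) (rv v) (t v) (Λ v) (a v) (g v) (F v)) →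
      ‖∑' x : {x : K // x ∈ L}, ca K r x * pF F y ω x‖ ≤ CG * Real.sqrt (dK K) *
        (1 + DD L y ^ (5 / 6 : ℝ) * PP (fun v => Mt (t v) (Λ v)) ^ (13 / 15 : ℝ) +
          DD L y ^ (25 / 24 : ℝ) * PP (fun v => Mt (t v) (Λ v)) ^ (121 / 120 : ℝ)))
    (L : FI K) (hL : L ≠ 0) (y : InfinitePlace K → ℝ) (ω : InfinitePlace K → ℂ) (hω : Pos ω)
    (Λ a : InfinitePlace K → ℂ) (hΛ : ∀ v, Rl (rv v) (Λ v)) (ha0 : ∀ v, a v ≠ 0)
    (ha1 : ∀ v, ‖a v‖ ≤ 1 / 10000) (ha2 : ∀ v, Rl (rv v) (a v))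
    (G : InfinitePlace K → ℂ → ℂ) (F : InfinitePlace K → Option (ℤ × ℤ) → ℂ → ℂ)
    (hF : ∀ v, Pcs (n + 5) k CD (rv v) (Λ v) (a v) (G v) (F v)) (r : K)
    (j : InfinitePlace K → Option (ℤ × ℤ)) :
    ‖∑' x : {x : K // x ∈ L}, ca K r x * pF (fun v => F v (j v)) y ω x‖ ≤
      (∏ v, cb CD ‖Λ v‖ k (dg (rv v)) (j v)) * (CG * Real.sqrt (dK K) *
        (1 + DD L y ^ (5 / 6 : ℝ) * PP (fun v => mt ‖Λ v‖ (j v)) ^ (13 / 15 : ℝ) +
          DD L y ^ (25 / 24 : ℝ) * PP (fun v => mt ‖Λ v‖ (j v)) ^ (121 / 120 : ℝ))) := by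
  have hmt : ∀ v, 0 ≤ mt ‖Λ v‖ (j v) := by
    intro v
    cases j v with
    | none => exact norm_nonneg _
    | some g => exact zero_le_one
  have hP0 : 0 ≤ PP (fun v => mt ‖Λ v‖ (j v)) := PP_nonneg _ hmt
  have hD0 := (DD_pos L hL y).le
  by_cases h0 : ∃ v, j v = none ∧ ‖Λ v‖ < 1
  · obtain ⟨v, hv1, hv2⟩ := h0
    have h1 : ∀ x : {x : K // x ∈ L}, ca K r x * pF (fun v => F v (j v)) y ω x = 0 := by
      intro x
      have h2 : pF (fun v => F v (j v)) y ω x = 0 := by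
        unfold pF
        refine Finset.prod_eq_zero (Finset.mem_univ v) ?_
        show F v (j v) (wv v x y ω) = 0
        rw [hv1, (hF v).small hv2]
        rfl
      rw [h2, mul_zero]
    simp only [h1]
    rw [tsum_zero, norm_zero]
    refine mul_nonneg (Finset.prod_nonneg fun v _ => cb_nonneg hCD.le (norm_nonneg _) _ _ _) ?_
    positivity
  · have hl : ∀ v, j v = none → 1 ≤ ‖Λ v‖ := by
      intro v hv
      by_contra hcon
      exact h0 ⟨v, hv, not_le.1 hcon⟩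
    obtain ⟨cv, hcv⟩ : ∃ cv : InfinitePlace K → ℝ, cv =
      fun v => cb CD ‖Λ v‖ k (dg (rv v)) (j v) := ⟨_, rfl⟩
    have hcv' : ∀ v, cb CD ‖Λ v‖ k (dg (rv v)) (j v) = cv v := fun v => by rw [hcv]
    have hc0 : ∀ v, 0 < cv v := by
      intro v
      rw [← hcv' v]
      cases hj : j v with
      | none =>
        have h1 := hl v hj
        show 0 < if 1 ≤ ‖Λ v‖ then CD * ‖Λ v‖ ^ (-(dg (rv v) : ℝ) / 2) else 0
        rw [if_pos h1]
        have : 0 < ‖Λ v‖ := by linarith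
        positivity
      | some g =>
        show 0 < CD * (1 + ‖Λ v‖ + ‖gi g‖) ^ (-(k : ℝ))
        positivity
    obtain ⟨F', hF'⟩ : ∃ F' : InfinitePlace K → ℂ → ℂ, F' =
      fun v z => (((cv v)⁻¹ : ℝ) : ℂ) * F v (j v) z := ⟨_, rfl⟩
    have hn : ∀ v, ‖(((cv v)⁻¹ : ℝ) : ℂ)‖ = (cv v)⁻¹ := by
      intro v
      rw [Complex.norm_real, Real.norm_eq_abs, abs_of_pos (inv_pos.2 (hc0 v))]
    have hdat : ∀ v, LDat (n + 5) (rv v) ((j v).isNone) (Λ v) (a v) (gc (Λ v) (j v)) (F' v) := by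
      intro v
      refine ⟨fun ht => ?_, fun ht => ?_⟩
      · have hj : j v = none := Option.isNone_iff_eq_none.1 ht
        have h1 := hl v hj
        refine ⟨h1, hΛ v, ha0 v, ha1 v, ha2 v, ?_⟩
        obtain ⟨A, hA, hFA⟩ := (hF v).large h1
        have h2 : cv v = CD * ‖Λ v‖ ^ (-(dg (rv v) : ℝ) / 2) := by
          rw [← hcv' v, hj]
          show (if 1 ≤ ‖Λ v‖ then CD * ‖Λ v‖ ^ (-(dg (rv v) : ℝ) / 2) else 0) = _
          rw [if_pos h1]
        refine ⟨fun z => (((cv v)⁻¹ : ℝ) : ℂ) * A z, ?_, ?_⟩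
        · have h3 := hA.const_mul (((cv v)⁻¹ : ℝ) : ℂ)
          rw [hn v, ← h2, inv_mul_cancel₀ (hc0 v).ne'] at h3
          exact h3
        · funext z
          rw [hF']
          show (((cv v)⁻¹ : ℝ) : ℂ) * F v (j v) z = _
          rw [hj, hFA]
          unfold FT1
          ring
      · obtain ⟨g, hj⟩ : ∃ g, j v = some g := by
          cases hj : j v with
          | none =>
            rw [hj] at ht
            exact absurd ht (by simp)
          | some g => exact ⟨g, rfl⟩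
        have h2 : cv v = CD * (1 + ‖Λ v‖ + ‖gi g‖) ^ (-(k : ℝ)) := by
          rw [← hcv' v, hj]
          rfl
        have h3 := ((hF v).sm g).const_mul (((cv v)⁻¹ : ℝ) : ℂ)
        rw [hn v, ← h2, inv_mul_cancel₀ (hc0 v).ne'] at h3
        have h4 : F' v = fun z => (((cv v)⁻¹ : ℝ) : ℂ) * F v (some g) z := by
          funext z
          rw [hF']
          show (((cv v)⁻¹ : ℝ) : ℂ) * F v (j v) z = _
          rw [hj]
        rw [h4, hj]
        exact h3
    have h1 := hG L y ω (fun v => (j v).isNone) Λ a (fun v => gc (Λ v) (j v)) F' r hL hω hdat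
    have h2 : (fun v => Mt ((j v).isNone) (Λ v)) = fun v => mt ‖Λ v‖ (j v) := by
      funext v
      cases j v with
      | none => rfl
      | some g => rfl
    rw [h2] at h1
    have h3 : ∀ x : {x : K // x ∈ L}, ca K r x * pF (fun v => F v (j v)) y ω x =
        (((∏ v, cv v : ℝ)) : ℂ) * (ca K r x * pF F' y ω x) := by
      intro x
      have h4 : pF (fun v => F v (j v)) y ω x = (((∏ v, cv v : ℝ)) : ℂ) * pF F' y ω x := by
        unfold pF
        rw [Complex.ofReal_prod, ← Finset.prod_mul_distrib]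
        refine Finset.prod_congr rfl fun v _ => ?_
        rw [hF']
        show F v (j v) (wv v x y ω) = _ * ((((cv v)⁻¹ : ℝ) : ℂ) * F v (j v) (wv v x y ω))
        rw [← mul_assoc, ← Complex.ofReal_mul, mul_inv_cancel₀ (hc0 v).ne', Complex.ofReal_one,
          one_mul]
      rw [h4]
      ring
    simp only [h3, hcv']
    rw [tsum_mul_left, norm_mul, Complex.norm_real, Real.norm_eq_abs,
      abs_of_nonneg (Finset.prod_nonneg fun v _ => (hc0 v).le)]
    exact mul_le_mul_of_nonneg_left h1 (Finset.prod_nonneg fun v _ => (hc0 v).le)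

theorem norm_ca (r x : K) : ‖ca K r x‖ ≤ 1 := by
  unfold ca
  have : 2 * Real.pi * I * ((Algebra.trace ℚ K (r * x) : ℚ) : ℂ) =
      ((2 * Real.pi * ((Algebra.trace ℚ K (r * x) : ℚ) : ℝ) : ℝ) : ℂ) * I := by
    push_cast
    ring
  rw [this, Complex.norm_exp_ofReal_mul_I]

/-- the sum over the pieces of the bounds -/
theorem sum_bound (hPE : W_PE) {n : ℕ} (hn : Module.finrank ℚ K = n) {C : ℝ} (hC : 0 ≤ C)
    {k : ℕ} (hk : 4 ≤ k) (lam : InfinitePlace K → ℝ) (hl : ∀ v, 0 ≤ lam v) {A E₁ E₂ : ℝ}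
    (hA : 0 ≤ A) (hE₁ : 0 ≤ E₁) (hE₂ : 0 ≤ E₂) :
    Summable (fun j : InfinitePlace K → Option (ℤ × ℤ) =>
      (∏ v, cb C (lam v) k (dg (rv v)) (j v)) * (A *
        (1 + E₁ * PP (fun v => mt (lam v) (j v)) ^ (13 / 15 : ℝ) +
          E₂ * PP (fun v => mt (lam v) (j v)) ^ (121 / 120 : ℝ)))) ∧
    ∑' j : InfinitePlace K → Option (ℤ × ℤ),
      (∏ v, cb C (lam v) k (dg (rv v)) (j v)) * (A *
        (1 + E₁ * PP (fun v => mt (lam v) (j v)) ^ (13 / 15 : ℝ) +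
          E₂ * PP (fun v => mt (lam v) (j v)) ^ (121 / 120 : ℝ))) ≤
      A * ((max 1 (C * (1 + B0))) ^ n * (PP (fun v => max 1 (lam v)) ^ (-(1 / 2) : ℝ) +
        E₁ * PP (fun v => max 1 (lam v)) ^ (11 / 30 : ℝ) +
        E₂ * PP (fun v => max 1 (lam v)) ^ (61 / 120 : ℝ))) := by
  obtain ⟨s0, t0⟩ := sum_all hPE hn hC hk lam hl (β := 0) le_rfl
  obtain ⟨s1, t1⟩ := sum_all hPE hn hC hk lam hl (β := 13 / 15) (by norm_num)
  obtain ⟨s2, t2⟩ := sum_all hPE hn hC hk lam hl (β := 121 / 120) (by norm_num)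
  have h0 := (((s0.hasSum.add (s1.hasSum.mul_left E₁)).add (s2.hasSum.mul_left E₂)).mul_left A)
  have h1 : (fun j : InfinitePlace K → Option (ℤ × ℤ) =>
      (∏ v, cb C (lam v) k (dg (rv v)) (j v)) * (A *
        (1 + E₁ * PP (fun v => mt (lam v) (j v)) ^ (13 / 15 : ℝ) +
          E₂ * PP (fun v => mt (lam v) (j v)) ^ (121 / 120 : ℝ)))) = fun j =>
      A * ((∏ v, cb C (lam v) k (dg (rv v)) (j v)) * PP (fun v => mt (lam v) (j v)) ^ (0 : ℝ) +
        E₁ * ((∏ v, cb C (lam v) k (dg (rv v)) (j v)) *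
          PP (fun v => mt (lam v) (j v)) ^ (13 / 15 : ℝ)) +
        E₂ * ((∏ v, cb C (lam v) k (dg (rv v)) (j v)) *
          PP (fun v => mt (lam v) (j v)) ^ (121 / 120 : ℝ))) := by
    funext j
    rw [Real.rpow_zero]
    ring
  rw [h1]
  refine ⟨h0.summable, ?_⟩
  rw [h0.tsum_eq]
  refine mul_le_mul_of_nonneg_left ?_ hA
  rw [show ((0 : ℝ) - 1 / 2) = (-(1 / 2) : ℝ) by norm_num] at t0
  rw [show ((13 / 15 : ℝ) - 1 / 2) = (11 / 30 : ℝ) by norm_num] at t1
  rw [show ((121 / 120 : ℝ) - 1 / 2) = (61 / 120 : ℝ) by norm_num] at t2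
  have t1' := mul_le_mul_of_nonneg_left t1 hE₁
  have t2' := mul_le_mul_of_nonneg_left t2 hE₂
  calc _ ≤ (max 1 (C * (1 + B0))) ^ n * PP (fun v => max 1 (lam v)) ^ (-(1 / 2) : ℝ) +
        E₁ * ((max 1 (C * (1 + B0))) ^ n * PP (fun v => max 1 (lam v)) ^ (11 / 30 : ℝ)) +
        E₂ * ((max 1 (C * (1 + B0))) ^ n * PP (fun v => max 1 (lam v)) ^ (61 / 120 : ℝ)) :=
        add_le_add (add_le_add t0 t1') t2'
    _ = _ := by ring

end SD

open SDA SD in
/-- (SD) -/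
theorem pf_SD (hDE : W_DE) (hPO : W_PO) (hGD : W_GD) (hSX : W_SX) (hPE : W_PE) : W_SD := by
  intro n p hn hp
  obtain ⟨CD, hCD, hD⟩ := exists_pcs hDE p hp (n + 5) (n + 4)
  obtain ⟨CG, hCG, hG⟩ := hGD n hn
  have hM0 : (0 : ℝ) ≤ (max 1 (CD * (1 + B0))) ^ n :=
    pow_nonneg (le_trans zero_le_one (le_max_left _ _)) _
  refine ⟨CG * (max 1 (CD * (1 + B0))) ^ n, mul_nonneg hCG hM0, ?_⟩
  intro K _ _ hK L y ω c r δ hL hω hc hδ hsm
  obtain ⟨a, ha⟩ : ∃ a : InfinitePlace K → ℂ, a = fun v => wv v δ y ω := ⟨_, rfl⟩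
  have hav : ∀ v, wv v δ y ω = a v := fun v => by rw [ha]
  have ha0 : ∀ v, a v ≠ 0 := by
    intro v h
    have h1 := norm_wv v δ y hω
    rw [hav v, h, norm_zero] at h1
    have h2 : 0 < v δ * Real.exp (y v / 2) := mul_pos (v.pos_iff.2 hδ) (Real.exp_pos _)
    linarith
  have ha1 : ∀ v, ‖a v‖ ≤ 1 / 10000 := fun v => by
    rw [← hav v]
    exact hsm v
  have ha2 : ∀ v, Rl (rv v) (a v) := fun v => by
    rw [← hav v]
    exact Rl_wv v δ y hω
  have hΛ : ∀ v, Rl (rv v) (2 * c v * a v) := fun v =>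
    Rl_mul (Rl_mul (Rl_ofReal (rv v) 2) (hc v)) (ha2 v)
  simp only [hav]
  choose F hF using fun v => hD (rv v) (c v) (a v) (ha0 v) (ha1 v) (ha2 v) (hc v)
  have hd : du K L ≠ 0 := (Pool.Agent.H63.HK.du K L hL).1
  have hω' := hω.conj
  -- the bounds of the Fourier transforms
  have hdec : ∃ C : ℝ, ∀ v ξ, Rl (rv v) ξ →
      ‖Pool.Agent.H31.SW.FF (rv v) (G2 (p (rv v)) (c v) (a v)) ξ‖ ≤
      C * (1 + ‖ξ‖) ^ (-(Module.finrank ℚ K + 1 : ℝ)) := by
    have h1 : ∀ v, ∃ C' : ℝ, 0 ≤ C' ∧ ∀ ξ, Rl (rv v) ξ →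
        ‖Pool.Agent.H31.SW.FF (rv v) (G2 (p (rv v)) (c v) (a v)) ξ‖ ≤
        C' * (1 + ‖ξ‖) ^ (-(Module.finrank ℚ K + 1 : ℝ)) := fun v =>
      (hF v).decay hCD.le (by positivity) (by rw [hK]; push_cast; linarith)
    choose C' hC'0 hC' using h1
    refine ⟨∑ v, C' v, fun v ξ hξ => (hC' v ξ hξ).trans ?_⟩
    exact mul_le_mul_of_nonneg_right
      (Finset.single_le_sum (fun v _ => hC'0 v) (Finset.mem_univ v)) (by positivity)
  obtain ⟨-, h1⟩ := hPO K L r (fun v => G2 (p (rv v)) (c v) (a v)) hL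
    (fun v => cont_G2 (hp.1 (rv v) 0).continuous (hp.2 (rv v)) (c v) (a v))
    ⟨3, fun v w hw => G2_zero (hp.2 (rv v)) (c v) (ha1 v) hw⟩ hdec y ω hω
  rw [h1]
  have h2 : ∀ x : {x : K // x ∈ du K L}, ca K r x * ∏ v, Pool.Agent.H31.SW.FF (rv v)
      (G2 (p (rv v)) (c v) (a v))
      (2 * Real.pi * dg (rv v) * wv v x (-y) (fun v => (starRingEnd ℂ) (ω v))) =
      ca K r x * pF (fun v z => ∑' j, F v j z) (yd y) (fun v => (starRingEnd ℂ) (ω v)) x := by
    intro x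
    unfold pF
    refine congrArg (fun z => ca K r x * z) (Finset.prod_congr rfl fun v _ => ?_)
    rw [wv_yd]
    exact ((hF v).sum _ (Rl_wv v _ _ hω')).tsum_eq.symm
  simp only [h2]
  obtain ⟨-, h3⟩ := hSX K (du K L) (yd y) (fun v => (starRingEnd ℂ) (ω v)) (Option (ℤ × ℤ)) F
    (fun v => gc (2 * c v * a v)) (∑ v, ‖2 * c v * a v‖ + 2)
    (fun v j => cb CD ‖2 * c v * a v‖ (n + 4) (dg (rv v)) j) (ca K r) hd hω' (norm_ca r)
    (fun v j z => (hF v).norm_le hCD.le j z)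
    (fun v j z hz => (hF v).eq_zero (by
      have := Finset.single_le_sum (f := fun v => ‖2 * c v * a v‖)
        (fun v _ => norm_nonneg _) (Finset.mem_univ v)
      linarith) j hz)
    (fun v => by
      have h4 := (sum_pieces hCD.le (norm_nonneg (2 * c v * a v)) (k := n + 4) (e := dg (rv v))
        (by omega) (by unfold dg; split_ifs <;> norm_num) (β := 0) le_rfl).1
      refine h4.congr fun j => ?_
      rw [zero_mul, Real.rpow_zero, mul_one])
  rw [h3]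
  have hE0 := (DD_pos (du K L) hd (yd y)).le
  obtain ⟨s1, s2⟩ := sum_bound hPE hK hCD.le (k := n + 4) (by omega)
    (fun v => ‖2 * c v * a v‖) (fun v => norm_nonneg _)
    (A := CG * Real.sqrt (dK K)) (E₁ := DD (du K L) (yd y) ^ (5 / 6 : ℝ))
    (E₂ := DD (du K L) (yd y) ^ (25 / 24 : ℝ)) (mul_nonneg hCG (Real.sqrt_nonneg _))
    (Real.rpow_nonneg hE0 _) (Real.rpow_nonneg hE0 _)
  have h5 := tsum_of_norm_bounded s1.hasSum (fun j => piece hCG hCD (hG K hK) (du K L) hd (yd y)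
    (fun v => (starRingEnd ℂ) (ω v)) hω' (fun v => 2 * c v * a v) a hΛ ha0 ha1 ha2 _ F hF r j)
  have h6 := h5.trans s2
  have hDD := DD_pos L hL y
  have hd1 := dK_one_le (K := K)
  have hsq : 0 < Real.sqrt (dK K) := Real.sqrt_pos.2 (by linarith)
  have hdual := DD_dual L hL y
  have hp1 := dual_pow (α := 5 / 6) hDD hd1 hE0 hdual (by norm_num) (by norm_num)
  have hp2 := dual_pow (α := 25 / 24) hDD hd1 hE0 hdual (by norm_num) (by norm_num)
  rw [show (1 - 5 / 6 : ℝ) = 1 / 6 by norm_num] at hp1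
  rw [show (1 - 25 / 24 : ℝ) = -(1 / 24) by norm_num] at hp2
  have hP0 : 0 ≤ PP (fun v => max 1 ‖2 * c v * a v‖) := PP_nonneg _ fun v =>
    le_trans zero_le_one (le_max_left _ _)
  have hd2 : 1 ≤ dK K ^ 2 := one_le_pow₀ hd1
  rw [norm_mul, Complex.norm_real, Real.norm_eq_abs,
    abs_of_nonneg (div_nonneg hDD.le hsq.le)]
  have q1 := mul_le_mul_of_nonneg_right hd2 (mul_nonneg hDD.le
    (Real.rpow_nonneg hP0 (-(1 / 2) : ℝ)))
  have q2 := mul_le_mul_of_nonneg_right hp1 (Real.rpow_nonneg hP0 (11 / 30 : ℝ))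
  have q3 := mul_le_mul_of_nonneg_right hp2 (Real.rpow_nonneg hP0 (61 / 120 : ℝ))
  calc _ ≤ DD L y / Real.sqrt (dK K) * (CG * Real.sqrt (dK K) *
        ((max 1 (CD * (1 + B0))) ^ n *
          (PP (fun v => max 1 ‖2 * c v * a v‖) ^ (-(1 / 2) : ℝ) +
          DD (du K L) (yd y) ^ (5 / 6 : ℝ) *
            PP (fun v => max 1 ‖2 * c v * a v‖) ^ (11 / 30 : ℝ) +
          DD (du K L) (yd y) ^ (25 / 24 : ℝ) *
            PP (fun v => max 1 ‖2 * c v * a v‖) ^ (61 / 120 : ℝ)))) :=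
        mul_le_mul_of_nonneg_left h6 (div_nonneg hDD.le hsq.le)
    _ = CG * (max 1 (CD * (1 + B0))) ^ n *
        (DD L y * PP (fun v => max 1 ‖2 * c v * a v‖) ^ (-(1 / 2) : ℝ) +
          DD L y * DD (du K L) (yd y) ^ (5 / 6 : ℝ) *
            PP (fun v => max 1 ‖2 * c v * a v‖) ^ (11 / 30 : ℝ) +
          DD L y * DD (du K L) (yd y) ^ (25 / 24 : ℝ) *
            PP (fun v => max 1 ‖2 * c v * a v‖) ^ (61 / 120 : ℝ)) := by
        field_simp
    _ ≤ CG * (max 1 (CD * (1 + B0))) ^ n *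
        (dK K ^ 2 * (DD L y * PP (fun v => max 1 ‖2 * c v * a v‖) ^ (-(1 / 2) : ℝ)) +
          dK K ^ 2 * DD L y ^ (1 / 6 : ℝ) *
            PP (fun v => max 1 ‖2 * c v * a v‖) ^ (11 / 30 : ℝ) +
          dK K ^ 2 * DD L y ^ (-(1 / 24) : ℝ) *
            PP (fun v => max 1 ‖2 * c v * a v‖) ^ (61 / 120 : ℝ)) := by
        refine mul_le_mul_of_nonneg_left ?_ (mul_nonneg hCG hM0)
        linarith
    _ = _ := by ring

end Pool.Agent.H69.SWL
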